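import Pool.Agent.Y249.Leg.SubL

/-!
# `L log L` and a logarithmic cancellation class lie in the rearrangement hull

Question of the problem: is `M^{8/7} ⊂ RH_0(A)`, `A` the class of all `f ∈ L¹[-1,1]` whose maximal
Fourier-Legendre partial sum is integrable?

Here: let `W` be the class of all `f ∈ L¹` for which there are levels `t_k ∈ [2^k, 2^{k+1}]` with
`∑_k k |∫_{t_k < |f| ≤ t_{k+1}} f| < ∞`.  Then every `f ∈ W` has, for every `ε > 0`, a rearrangement
`f ∘ ω`, `ω ∈ Ω_ε`, with integrable maximal partial sum, and the Fourier-Legendre partial sums of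
`f ∘ ω` converge to `f ∘ ω` almost everywhere and in `L¹`.  The class `W` contains `L log L` and the
class `M_log` of all `f ∈ L¹` with `∫_1^∞ (log t / t) |∫_{|f| > t} f| dt < ∞`, which contains `M^q`
for every `q > 1`.

Library used: `Pool.Agent.Helper187.Leg` (starting commit) for the block construction; the new part
is in `Pool.Agent.Y249.Leg`: the logarithmic estimate for the maximal partial sum of the indicator of
an interval, the choice of the levels, and the convergence.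
-/

open MeasureTheory Set Real Filter Topology
open scoped ENNReal

namespace Pool.Agent.Results.MP_f3eb7e_an.LogClass

/-- The interval `S = [-1, 1]`. -/
abbrev S : Type := Set.Icc (-1 : ℝ) 1

/-- Lebesgue measure on `S`. -/
noncomputable def mu : Measure S := Measure.comap Subtype.val volume

/-- The Legendre polynomials (Bonnet recursion). -/
noncomputable def legendre : ℕ → ℝ → ℝ
  | 0, _ => 1
  | 1, x => x
  | (n + 2), x => ((2 * n + 3) * x * legendre (n + 1) x - (n + 1) * legendre n x) / (n + 2)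

/-- The Legendre polynomials normalised in `L²[-1, 1]`. -/
noncomputable def p (k : ℕ) (x : S) : ℝ := √((k : ℝ) + 1 / 2) * legendre k x

/-- The `n`-th partial sum of the Fourier-Legendre expansion of `f`. -/
noncomputable def partialSum (n : ℕ) (f : S → ℝ) (x : S) : ℝ :=
  ∑ k ∈ Finset.range (n + 1), (∫ t, f t * p k t ∂mu) * p k x

/-- The maximal partial sum `S^* f`. -/
noncomputable def maximal (f : S → ℝ) (x : S) : ℝ≥0∞ :=
  ⨆ n : ℕ, ENNReal.ofReal |partialSum n f x|

/-- The class `A` of all `f ∈ L¹` with `S^* f ∈ L¹`. -/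
def A : Set (S → ℝ) := {f | Integrable f mu ∧ ∫⁻ x, maximal f x ∂mu < ⊤}

/-- The class of all `f ∈ A` whose partial sums converge to `f` almost everywhere and in `L¹`. -/
def Aconv : Set (S → ℝ) :=
  {f | f ∈ A ∧ (∀ᵐ x ∂mu, Tendsto (fun n => partialSum n f x) atTop (𝓝 (f x))) ∧
    Tendsto (fun n => ∫⁻ x, ENNReal.ofReal |partialSum n f x - f x| ∂mu) atTop (𝓝 0)}

/-- `Ω_ε`: invertible measure preserving maps moving a set of measure at most `ε`. -/
def Omega (ε : ℝ) : Set (S ≃ᵐ S) :=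
  {ω | MeasurePreserving ω mu mu ∧ mu {x | ω x ≠ x} ≤ ENNReal.ofReal ε}

/-- `R_ε(B) = {g ∘ ω : g ∈ B, ω ∈ Ω_ε}`. -/
def R (ε : ℝ) (B : Set (S → ℝ)) : Set (S → ℝ) := {f | ∃ g ∈ B, ∃ ω ∈ Omega ε, f = g ∘ ω}

/-- `RH_0(B)`, the intersection of the `R_ε(B)`, `ε > 0`. -/
def RH0 (B : Set (S → ℝ)) : Set (S → ℝ) := ⋂ (ε : ℝ) (_ : 0 < ε), R ε B

/-- The class `M^q`. -/
def M (q : ℝ) : Set (S → ℝ) :=
  {f | Integrable f mu ∧ ∫⁻ t in Ioi (0 : ℝ), ENNReal.ofReal
    (t ^ (q - 2) * |∫ x, (if t < |f x| then f x else 0) ∂mu|) < ⊤}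

/-- The logarithmic class: `∫_1^∞ (log t / t) |∫_{|f| > t} f| dt < ∞`. -/
def Mlog : Set (S → ℝ) :=
  {f | Integrable f mu ∧ ∫⁻ t in Ioi (1 : ℝ), ENNReal.ofReal
    (log t / t * |∫ x, (if t < |f x| then f x else 0) ∂mu|) < ⊤}

/-- The class `L log L`. -/
def LlogL : Set (S → ℝ) :=
  {f | Integrable f mu ∧ Integrable (fun x => |f x| * log (max 1 |f x|)) mu}

/-- The class `W`: there are levels `t_k ∈ [2^k, 2^{k+1}]` with
`∑_k k |∫_{t_k < |f| ≤ t_{k+1}} f| < ∞`. -/
def W : Set (S → ℝ) :=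
  {f | Integrable f mu ∧ ∃ t : ℕ → ℝ, (∀ k, (2 : ℝ) ^ k ≤ t k ∧ t k ≤ 2 ^ (k + 1)) ∧
    Summable fun k : ℕ =>
      (k : ℝ) * |∫ x, (if t k < |f x| ∧ |f x| ≤ t (k + 1) then f x else 0) ∂mu|}

theorem legendre_eq : ∀ n x, legendre n x = Pool.Agent.Helper187.Leg.leg n x
  | 0, x => by simp [legendre, Pool.Agent.Helper187.Leg.leg]
  | 1, x => by simp [legendre, Pool.Agent.Helper187.Leg.leg]
  | (n + 2), x => by
      simp only [legendre, Pool.Agent.Helper187.Leg.leg]
      rw [legendre_eq (n + 1) x, legendre_eq n x]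

theorem W_sub : W ⊆ RH0 Aconv := by
  intro f hf
  simp only [RH0, mem_iInter]
  intro ε hε
  obtain ⟨e, he, hd, hi, hN, hc, hL⟩ := Pool.Agent.Y249.Leg.main_subtypeL f hf.1 hf.2 hε
  have he' : MeasurePreserving e mu mu := he
  refine ⟨f ∘ e, ⟨⟨hi, ?_⟩, ?_, ?_⟩, e.symm, ⟨he'.symm e, ?_⟩, ?_⟩
  · unfold maximal partialSum p
    simp only [legendre_eq]
    exact hN
  · unfold partialSum p
    simp only [legendre_eq]
    exact hc
  · unfold partialSum p
    simp only [legendre_eq]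
    exact hL
  · have h1 : {x | e.symm x ≠ x} = {x | e x ≠ x} := by
      ext x
      simp only [mem_ofPred_eq, ne_eq, not_iff_not]
      constructor
      · intro h
        have := e.apply_symm_apply x
        rw [h] at this
        exact this
      · intro h
        have := e.symm_apply_apply x
        rw [h] at this
        exact this
    rw [h1]
    exact hd
  · funext x
    simp

theorem Mlog_sub : Mlog ⊆ W := fun _ hf => ⟨hf.1, Pool.Agent.Y249.Leg.Levels_of_log hf.1 hf.2⟩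

theorem LlogL_sub : LlogL ⊆ W := fun _ hf => ⟨hf.1, Pool.Agent.Y249.Leg.Levels_of_LlogL hf.1 hf.2⟩

theorem M_sub (q : ℝ) (hq : 1 < q) : M q ⊆ Mlog := by
  intro f hf
  refine ⟨hf.1, ?_⟩
  set G : ℝ → ℝ := fun t => ∫ x, (if t < |f x| then f x else 0) ∂mu with hG
  have hq1 : 0 < q - 1 := by linarith
  have h1 : ∫⁻ t in Ioi (1 : ℝ), ENNReal.ofReal (log t / t * |G t|) ≤
      ∫⁻ t in Ioi (1 : ℝ), ENNReal.ofReal (1 / (q - 1)) * ENNReal.ofReal (t ^ (q - 2) * |G t|) := by
    refine setLIntegral_mono' measurableSet_Ioi fun t ht => ?_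
    rw [← ENNReal.ofReal_mul (by positivity)]
    apply ENNReal.ofReal_le_ofReal
    have ht0 : (0 : ℝ) < t := lt_trans one_pos ht
    have h2 : log t ≤ t ^ (q - 1) / (q - 1) := log_le_rpow_div ht0.le hq1
    have h3 : t ^ (q - 2) = t ^ (q - 1) / t := by
      rw [← rpow_sub_one ht0.ne']; congr 1; ring
    have h4 : log t / t ≤ 1 / (q - 1) * t ^ (q - 2) := by
      rw [h3, div_le_iff₀ ht0]
      calc log t ≤ t ^ (q - 1) / (q - 1) := h2
        _ = 1 / (q - 1) * (t ^ (q - 1) / t) * t := by field_simp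
    calc log t / t * |G t| ≤ (1 / (q - 1) * t ^ (q - 2)) * |G t| :=
          mul_le_mul_of_nonneg_right h4 (abs_nonneg _)
      _ = 1 / (q - 1) * (t ^ (q - 2) * |G t|) := by ring
  refine h1.trans_lt ?_
  rw [lintegral_const_mul' _ _ ENNReal.ofReal_ne_top]
  refine ENNReal.mul_lt_top ENNReal.ofReal_lt_top ?_
  exact (lintegral_mono_set (Ioi_subset_Ioi zero_le_one)).trans_lt hf.2

theorem RH0_mono {B C : Set (S → ℝ)} (h : B ⊆ C) : RH0 B ⊆ RH0 C := by
  intro f hf
  simp only [RH0, mem_iInter] at hf ⊢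
  intro ε hε
  obtain ⟨g, hg, ω, hω, e⟩ := hf ε hε
  exact ⟨g, h hg, ω, hω, e⟩

theorem Aconv_sub : Aconv ⊆ A := fun _ hf => hf.1

/-- Every `f ∈ W` is, up to rearrangements in `Ω_ε` with `ε` as small as we please, a function with
integrable maximal Fourier-Legendre partial sum whose partial sums converge almost everywhere and in
`L¹`; `W` contains `L log L`, the logarithmic class and all `M^q`, `q > 1`; in particular
`M^{8/7} ⊂ RH_0(A)`. -/
theorem result : W ⊆ RH0 Aconv ∧ LlogL ⊆ W ∧ Mlog ⊆ W ∧ (∀ q : ℝ, 1 < q → M q ⊆ Mlog) ∧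
    M (8 / 7) ⊆ RH0 A :=
  ⟨W_sub, LlogL_sub, Mlog_sub, M_sub,
    (M_sub _ (by norm_num)).trans (Mlog_sub.trans (W_sub.trans (RH0_mono Aconv_sub)))⟩

end Pool.Agent.Results.MP_f3eb7e_an.LogClass
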